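import Pool.Agent.H23.CMC.Targets

/-!
# Degrees, discriminants, conductors (DCX)
-/

set_option autoImplicit false

open NumberField MeasureTheory Set Filter Complex
open scoped nonZeroDivisors Real

namespace Pool.Agent.H91.CMC

open Pool.Agent.H23.CMC
open Pool.Agent.H65.CM4 (Sq nm dg Pl rv)
open Pool.Agent.H65.CMC (Emb ty PrTo IsHk ms IsLk gg GM cG Km Idx cdc Fmc lc)
open Pool.Agent.H23.CM4 (nJ Jd Nr wB)
open Pool.Agent.H23.LC (HG ag)

theorem ms_nonneg {k : Type} [Field k] [NumberField k] (m : Pl k → ℤ) : 0 ≤ ms m := by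
  unfold ms
  exact Finset.sum_nonneg fun v _ => abs_nonneg _

theorem one_le_nm {k : Type} [Field k] [NumberField k] (f : Ideal (𝓞 k)) (hf : f ≠ ⊥) :
    1 ≤ nm f := by
  unfold nm
  have h : Ideal.absNorm f ≠ 0 := fun h => hf (Ideal.absNorm_eq_zero_iff.mp h)
  exact_mod_cast Nat.one_le_iff_ne_zero.mpr h

theorem one_le_discr (K : Type) [Field K] [NumberField K] : 1 ≤ |(discr K : ℝ)| := by
  have h : 1 ≤ |discr K| := Int.one_le_abs (NumberField.discr_ne_zero K)
  have h2 : ((1 : ℤ) : ℝ) ≤ ((|discr K| : ℤ) : ℝ) := Int.cast_le.mpr h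
  rwa [Int.cast_abs, Int.cast_one] at h2

theorem cG_pos {k : Type} [Field k] [NumberField k] (m : Pl k → ℤ) (t : ℝ) : 0 < cG m t := by
  unfold cG
  refine Finset.prod_pos fun v _ => ?_
  rw [norm_pos_iff]
  refine Complex.Gamma_ne_zero_of_re_pos ?_
  have h : (0 : ℝ) ≤ ((|m v| : ℤ) : ℝ) := by exact_mod_cast abs_nonneg (m v)
  simp only [Complex.add_re, Complex.div_ofNat_re, Complex.one_re, Complex.intCast_re,
    Complex.mul_re, Complex.ofReal_re, Complex.I_re, mul_zero, Complex.ofReal_im, Complex.I_im,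
    mul_one, sub_self, add_zero]
  linarith

theorem cG_neg {k : Type} [Field k] [NumberField k] (m : Pl k → ℤ) (t : ℝ) :
    cG m (-t) = cG m t := by
  unfold cG
  refine Finset.prod_congr rfl fun v _ => ?_
  have h : (1 / 2 + ((|m v| : ℤ) : ℂ) + ((-t : ℝ) : ℂ) * Complex.I) =
      (starRingEnd ℂ) (1 / 2 + ((|m v| : ℤ) : ℂ) + (t : ℂ) * Complex.I) := by
    simp only [map_add, map_mul, Complex.conj_I, Complex.conj_ofReal, map_div₀, map_one,
      Complex.conj_ofNat, Complex.ofReal_neg]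
    rw [show (starRingEnd ℂ) ((|m v| : ℤ) : ℂ) = ((|m v| : ℤ) : ℂ) from by
      rw [← Complex.ofReal_intCast, Complex.conj_ofReal]]
    ring
  rw [h, Complex.Gamma_conj, Complex.norm_conj]

theorem pf_DCX : T_DCX := by
  intro k _ _ K _ _ _ hrk
  refine ⟨Module.finrank_pos, ?_, ?_, ?_⟩
  · have h := Module.finrank_mul_finrank ℚ k K
    rw [hrk] at h
    rw [← h, dg]
    ring
  · intro f hf
    have h1 := one_le_nm f hf
    have h2 := one_le_discr K
    have h3 : (1 : ℝ) ≤ nm f ^ 2 := one_le_pow₀ h1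
    have h4 : fK K f ≠ ⊥ := by
      intro h
      unfold fK at h
      rw [Ideal.map_eq_bot_iff_of_injective
        (FaithfulSMul.algebraMap_injective (𝓞 k) (𝓞 K))] at h
      exact hf h
    have h5 : (Ideal.absNorm (fK K f) : ℝ) = nm f ^ 2 := by
      unfold fK nm
      rw [Ideal.absNorm_algebraMap, ← IsFractionRing.finrank_eq (𝓞 k) k (𝓞 K) K, hrk]
      push_cast
      rfl
    refine ⟨?_, ?_, h1, h4, h5, ?_⟩
    · unfold dC
      exact one_le_mul_of_one_le_of_one_le h2 h3
    · unfold dC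
      exact le_mul_of_one_le_right (abs_nonneg _) h3
    · rw [h5]
      rfl
  · intro m s
    refine ⟨?_, cG_pos m _, ?_, ?_, ms_nonneg m⟩
    · unfold Tc
      have h1 := ms_nonneg m
      have h2 := abs_nonneg s.im
      linarith
    · rw [show (1 - s).im = -s.im from by simp]
      exact cG_neg m s.im
    · unfold Tc
      rw [show (1 - s).im = -s.im from by simp, abs_neg]

end Pool.Agent.H91.CMC
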