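import Pool.Agent.H23.CMC.Targets

/-!
# The fourth moment, conductors in `[X / 4, X]`, all weights (FM3)
-/

set_option autoImplicit false

open NumberField MeasureTheory Set Filter Complex
open scoped nonZeroDivisors Real

namespace Pool.Agent.H91.CMC

open Pool.Agent.H23.CMC
open Pool.Agent.H65.CM4 (Sq nm dg Pl rv)
open Pool.Agent.H65.CMC (Emb ty PrTo IsHk ms IsLk gg GM cG Km Idx cdc Fmc lc)
open Pool.Agent.H23.CM4 (nJ Jd Nr wB)
open Pool.Agent.H23.LC (HG ag)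

/-- the weight of one character -/
theorem fm3_one (A n : ℕ) (z T u : ℝ) (hu : 1 ≤ u) (hT : u ≤ T) :
    (z / T ^ (A + n)) ^ 4 ≤ (u ^ (2 * n))⁻¹ * (z / T ^ A) ^ 4 := by
  have hT1 : 1 ≤ T := hu.trans hT
  have hT0 : 0 < T := by linarith
  have h1 : (z / T ^ (A + n)) ^ 4 = (T ^ (4 * n))⁻¹ * (z / T ^ A) ^ 4 := by
    rw [pow_add]
    have h2 : T ^ (4 * n) = (T ^ n) ^ 4 := by rw [← pow_mul, mul_comm]
    rw [h2]
    have h3 : T ^ A ≠ 0 := by positivity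
    have h4 : T ^ n ≠ 0 := by positivity
    field_simp
  rw [h1]
  refine mul_le_mul_of_nonneg_right ?_ (by positivity)
  have h5 : u ^ (2 * n) ≤ T ^ (4 * n) := by
    calc u ^ (2 * n) ≤ T ^ (2 * n) := pow_le_pow_left₀ (by linarith) hT _
      _ ≤ T ^ (4 * n) := pow_le_pow_right₀ hT1 (by omega)
  exact inv_anti₀ (by positivity) h5

theorem pf_FM3 (hFM1 : T_FM1c) (hMSM : T_MSM) (hFX : T_FXc) (hDCX : T_DCX) : T_FM3c := by
  classical
  intro k _ _ _ ε hε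
  obtain ⟨C, A, hC, h1⟩ := hFM1 k ε hε
  obtain ⟨D, hD, h2⟩ := hMSM k
  refine ⟨C * D, A + dg k, mul_pos hC hD, ?_⟩
  intro X ι K _ _ _ Φ S f m F t hX hS
  have hms : ∀ m₀ : Pl k → ℤ, 0 ≤ ms m₀ := by
    intro m₀
    unfold ms
    exact Finset.sum_nonneg fun v _ => abs_nonneg _
  have hX0 : 0 ≤ C * X ^ (3 / 2 + ε) :=
    mul_nonneg hC.le (Real.rpow_nonneg (by linarith) _)
  rw [← Finset.sum_fiberwise_of_maps_to (s := S) (t := S.image m) (g := m)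
    (fun p hp => Finset.mem_image_of_mem m hp)]
  have h3 : ∀ m₀ ∈ S.image m, ∑ p ∈ S with m p = m₀,
      (‖F p (1 / 2 + t p * I)‖ / (1 + |t p| + ms (m p)) ^ (A + dg k)) ^ 4 ≤
      ((1 + ms m₀) ^ (2 * dg k))⁻¹ * (C * X ^ (3 / 2 + ε)) := by
    intro m₀ _
    have h4 : Fmc k K Φ (S.filter (fun p => m p = m₀)) f (fun _ => m₀) F (X / 4) X := by
      refine (hFX k ι K Φ S f m F (X / 4) X hS).2 _ _ _ _ (Finset.filter_subset _ _) ?_
      intro x hx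
      rw [Finset.mem_filter] at hx
      exact ⟨hx.2.symm, hS.lo x hx.1, hS.hi x hx.1⟩
    have h5 := h1 X ι K Φ (S.filter (fun p => m p = m₀)) f m₀ F t hX h4
    calc ∑ p ∈ S with m p = m₀,
          (‖F p (1 / 2 + t p * I)‖ / (1 + |t p| + ms (m p)) ^ (A + dg k)) ^ 4
        ≤ ∑ p ∈ S with m p = m₀, ((1 + ms m₀) ^ (2 * dg k))⁻¹ *
          (‖F p (1 / 2 + t p * I)‖ / (1 + |t p| + ms m₀) ^ A) ^ 4 := by
          refine Finset.sum_le_sum fun p hp => ?_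
          rw [Finset.mem_filter] at hp
          rw [hp.2]
          refine fm3_one A (dg k) _ _ _ ?_ ?_
          · linarith [hms m₀]
          · linarith [abs_nonneg (t p)]
      _ = ((1 + ms m₀) ^ (2 * dg k))⁻¹ * ∑ p ∈ S with m p = m₀,
          (‖F p (1 / 2 + t p * I)‖ / (1 + |t p| + ms m₀) ^ A) ^ 4 := by
          rw [Finset.mul_sum]
      _ ≤ ((1 + ms m₀) ^ (2 * dg k))⁻¹ * (C * X ^ (3 / 2 + ε)) := by
          refine mul_le_mul_of_nonneg_left h5 ?_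
          have := hms m₀
          positivity
  calc ∑ m₀ ∈ S.image m, ∑ p ∈ S with m p = m₀,
      (‖F p (1 / 2 + t p * I)‖ / (1 + |t p| + ms (m p)) ^ (A + dg k)) ^ 4
      ≤ ∑ m₀ ∈ S.image m, ((1 + ms m₀) ^ (2 * dg k))⁻¹ * (C * X ^ (3 / 2 + ε)) :=
        Finset.sum_le_sum h3
    _ = (∑ m₀ ∈ S.image m, ((1 + ms m₀) ^ (2 * dg k))⁻¹) * (C * X ^ (3 / 2 + ε)) := by
        rw [Finset.sum_mul]
    _ ≤ D * (C * X ^ (3 / 2 + ε)) := mul_le_mul_of_nonneg_right (h2 _) hX0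
    _ = C * D * X ^ (3 / 2 + ε) := by ring

end Pool.Agent.H91.CMC
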